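import Pool.Agent.V7H79.EH.Brackets

set_option autoImplicit false

/-! The distribution of random balanced words with `m` types of brackets. -/

namespace Pool.Agent.V7H79.EH
open Finset
open Pool.Agent.N625.PT (Flex)

lemma wt_append (m : ℕ) (y : List ℕ) (c : ℝ) (hy : ∀ s, wt m s y = c) (w : List ℕ) : ∀ s, wt m s (w ++ y) = c * wt m s w := by
  induction w with
  | nil => intro s; rw [List.nil_append, hy, wt, mul_one]
  | cons d w ih =>
    intro s
    by_cases h : d < m
    · rw [List.cons_append, wt_open h, wt_open h, ih]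
      ring
    · cases s with
      | nil => rw [List.cons_append, wt_nil h, wt_nil h, mul_zero]
      | cons a' s =>
        rw [List.cons_append, wt_cons h, wt_cons h]
        split_ifs
        · rw [ih]
          ring
        · rw [mul_zero]

lemma word_four (m : ℕ) (hm : 0 < m) : word (2 * m) 4 (m * (2 * m) + m) = [0, 0, m, m] ∧
    word (2 * m) 4 (m * (2 * m) ^ 2 + m) = [0, m, 0, m] := by
  have hb : 0 < 2 * m := by omega
  have h1 : m % (2 * m) = m := Nat.mod_eq_of_lt (by omega)
  have h2 : m / (2 * m) = 0 := Nat.div_eq_of_lt (by omega)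
  have h3 : (m * (2 * m) + m) % (2 * m) = m := by rw [Nat.mul_add_mod', h1]
  have h4 : (m * (2 * m) + m) / (2 * m) = m := by
    rw [Nat.add_div_of_dvd_right (Dvd.intro_left _ rfl), Nat.mul_div_cancel _ hb, h2, add_zero]
  have h5 : (m * (2 * m) ^ 2 + m) % (2 * m) = m := by
    rw [pow_two, ← mul_assoc, Nat.mul_add_mod', h1]
  have h6 : (m * (2 * m) ^ 2 + m) / (2 * m) = m * (2 * m) := by
    rw [pow_two, ← mul_assoc, Nat.add_div_of_dvd_right (Dvd.intro_left _ rfl), Nat.mul_div_cancel _ hb, h2, add_zero]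
  have h7 : m * (2 * m) % (2 * m) = 0 := Nat.mul_mod_left _ _
  have h8 : m * (2 * m) / (2 * m) = m := Nat.mul_div_cancel _ hb
  constructor
  · simp only [word, h3, h4, h1, h2, Nat.zero_mod, Nat.zero_div]
    rfl
  · simp only [word, h5, h6, h7, h8, h1, h2, Nat.zero_mod, Nat.zero_div]
    rfl

open Classical in
/-- the uniform distribution on the balanced words with `m` types of brackets of length `2 n`, read in base `2 m` -/
noncomputable def pB (m n v : ℕ) : ℝ := if Balanced m [] (word (2 * m) (2 * n) v) then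
  1 / ((((range ((2 * m) ^ (2 * n))).filter (fun v => Balanced m [] (word (2 * m) (2 * n) v))).card : ℕ) : ℝ) else 0

lemma flex_brackets (m n : ℕ) (hm : 0 < m) (hn : 1 ≤ n) :
    Flex (2 * m) 4 ((1 / (4 * m)) ^ 2) 2 (2 * n) (pB m n) := by
  classical
  obtain ⟨C, hC⟩ : ∃ C : ℕ, C = ((range ((2 * m) ^ (2 * n))).filter (fun v => Balanced m [] (word (2 * m) (2 * n) v))).card := ⟨_, rfl⟩
  have hCz : cnt m [] (2 * n) = C := by
    unfold cnt
    rw [hC, ← sum_filter, sum_const, nsmul_eq_mul, mul_one]
  have hge := cnt_ge m n hm hn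
  rw [hCz] at hge
  have hger : ((m : ℝ) * 4) ^ n ≤ (2 * n) ^ 2 * C := by exact_mod_cast hge
  have hmr : (1 : ℝ) ≤ m := by exact_mod_cast hm
  have hC0 : (0 : ℝ) < C := by
    have h1 : (0 : ℝ) < (m * 4) ^ n := by positivity
    have h2 : (0 : ℝ) < (2 * n) ^ 2 * C := lt_of_lt_of_le h1 hger
    exact pos_of_mul_pos_right h2 (by positivity)
  have hb : 0 < 2 * m := by omega
  have hp : pB m n = fun v => if Balanced m [] (word (2 * m) (2 * n) v) then 1 / (C : ℝ) else 0 := by
    funext v
    unfold pB
    rw [← hC]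
  rw [hp]
  refine ⟨fun v => ?_, ?_, fun i u => ((2 * n : ℕ) : ℝ) ^ 2 * wt m [] (word (2 * m) i u), fun i u => ?_, ?_, ?_, ?_, ?_⟩
  · split_ifs
    · positivity
    · exact le_rfl
  · rw [← sum_filter, sum_const, ← hC, nsmul_eq_mul, mul_one_div, div_self hC0.ne']
  · simp only
    exact mul_nonneg (by positivity) (wt_nonneg m _ _)
  · intro v _
    simp only
    split_ifs with h
    · have h1 := wt_balanced m _ [] n h (by rw [word_length]; simp)
      rw [word_length, show 2 * n - n = n by omega, ← mul_pow] at h1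
      have e : (1 / (2 * (m : ℝ)) * (1 / 2)) ^ n = 1 / (m * 4) ^ n := by
        rw [one_div_mul_one_div, one_div_pow]
        congr 2
        ring
      rw [e] at h1
      have h2 : 1 / (C : ℝ) ≤ ((2 * n : ℕ) : ℝ) ^ 2 * (1 / (m * 4) ^ n) := by
        rw [mul_one_div, div_le_div_iff₀ hC0 (by positivity), one_mul]
        push_cast
        exact hger
      exact h2.trans (mul_le_mul_of_nonneg_left h1 (by positivity))
    · exact mul_nonneg (by positivity) (wt_nonneg m _ _)
  · intro i _ u _
    simp only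
    rw [← mul_sum]
    apply mul_le_mul_of_nonneg_left _ (by positivity)
    refine le_trans (le_of_eq ?_) (wt_super m hm (word (2 * m) i u) [])
    apply sum_congr rfl
    intro a ha
    have ha' := mem_range.1 ha
    have h1 : (2 * m * u + a) / (2 * m) = u := by
      rw [Nat.mul_add_div hb, Nat.div_eq_of_lt ha', add_zero]
    have h2 : (2 * m * u + a) % (2 * m) = a := by
      rw [Nat.mul_add_mod, Nat.mod_eq_of_lt ha']
    rw [word, h1, h2]
  · simp [word, wt]
  · intro i u hi hu
    have hmb : m * (2 * m) < m * (2 * m) ^ 2 := by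
      apply Nat.mul_lt_mul_of_pos_left _ hm
      rw [pow_two]
      exact lt_mul_self (by omega)
    have hb4 : m * (2 * m) ^ 2 + m < (2 * m) ^ 4 := by
      have e1 : (2 * m) ^ 4 = (2 * m * m) * (2 * (2 * m) ^ 2) := by ring
      have e2 : 1 * (2 * (2 * m) ^ 2) ≤ (2 * m * m) * (2 * (2 * m) ^ 2) := by
        apply Nat.mul_le_mul_right
        nlinarith
      have e3 : m * (2 * m) ^ 2 + m < (2 * m) * (2 * m) ^ 2 * (m + 1) := by
        have : 0 < (2 * m) ^ 2 := by positivity
        nlinarith [Nat.mul_le_mul (show 1 ≤ m from hm) (show 1 ≤ (2 * m) ^ 2 from this)]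
      have e4 : (2 * m) ^ 4 = (2 * m) * (2 * m) ^ 2 * (2 * m) := by ring
      rw [e4]
      refine lt_of_lt_of_le e3 (Nat.mul_le_mul_left _ (by omega))
    obtain ⟨w1, w2⟩ := word_four m hm
    have hword : ∀ A < (2 * m) ^ 4, word (2 * m) (i + 4) ((2 * m) ^ 4 * u + A) = word (2 * m) i u ++ word (2 * m) 4 A := by
      intro A hA
      have := word_append (2 * m) hb i u 4 A hA
      rw [mul_comm u] at this
      exact this
    have hword2 : ∀ A < (2 * m) ^ 4, ∀ w < (2 * m) ^ (2 * n - (i + 4)),
        word (2 * m) (2 * n) (((2 * m) ^ 4 * u + A) * (2 * m) ^ (2 * n - (i + 4)) + w) =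
          word (2 * m) i u ++ (word (2 * m) 4 A ++ word (2 * m) (2 * n - (i + 4)) w) := by
      intro A hA w hw
      have := word_append (2 * m) hb (i + 4) ((2 * m) ^ 4 * u + A) (2 * n - (i + 4)) w hw
      rw [Nat.add_sub_cancel' hi, hword A hA, List.append_assoc] at this
      exact this
    have c1 : ∀ x s, wt m s (x ++ [0, 0, m, m]) = (1 / (4 * (m : ℝ))) ^ 2 * wt m s x := by
      intro x s
      apply wt_append
      intro s
      rw [wt_open hm, wt_open hm, wt_cons (by omega), if_pos (by omega), wt_cons (by omega), if_pos (by omega), wt]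
      ring
    have c2 : ∀ x s, wt m s (x ++ [0, m, 0, m]) = (1 / (4 * (m : ℝ))) ^ 2 * wt m s x := by
      intro x s
      apply wt_append
      intro s
      rw [wt_open hm, wt_cons (by omega), if_pos (by omega), wt_open hm, wt_cons (by omega), if_pos (by omega), wt]
      ring
    have hbal : ∀ w : List ℕ, Balanced m [] (word (2 * m) i u ++ ([0, 0, m, m] ++ w)) ↔
        Balanced m [] (word (2 * m) i u ++ ([0, m, 0, m] ++ w)) := by
      intro w
      have f1 := bal_pair m 0 hm (word (2 * m) i u ++ [0]) (m :: w) []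
      have f2 := bal_pair m 0 hm (word (2 * m) i u) w []
      have f3 := bal_pair m 0 hm (word (2 * m) i u) ([0, m] ++ w) []
      simp only [List.append_assoc, List.cons_append, List.nil_append, add_zero] at f1 f2 f3 ⊢
      rw [f1, f2, f3, f2]
    have hη : (1 / (4 * (m : ℝ))) ^ 2 ≤ 1 := by
      apply pow_le_one₀ (by positivity)
      rw [div_le_one (by positivity)]
      linarith
    refine ⟨m * (2 * m) + m, m * (2 * m) ^ 2 + m, 1, by omega, hb4, hη, by rw [mul_one]; exact hη, ?_, ?_, ?_⟩
    · intro w hw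
      rw [one_mul, hword2 _ (by omega) w hw, hword2 _ hb4 w hw, w1, w2]
      by_cases hB : Balanced m [] (word (2 * m) i u ++ ([0, m, 0, m] ++ word (2 * m) (2 * n - (i + 4)) w))
      · rw [if_pos ((hbal _).2 hB), if_pos hB]
      · rw [if_neg (fun h' => hB ((hbal _).1 h')), if_neg hB]
    · simp only
      rw [hword _ (by omega), w1, c1]
      apply le_of_eq
      ring
    · simp only
      rw [hword _ hb4, w2, c2]
      apply le_of_eq
      ring

end Pool.Agent.V7H79.EH
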