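import Mathlib

set_option autoImplicit false

/-! Approximation of a probability on a finite set by the uniform distribution on a finite family. -/

namespace Pool.Agent.V7H79.EH
open Finset

/-- the averages over the family `π` are the expectations for `p` up to `ε` -/
def Appr {Ω ι : Type} [Fintype Ω] [Fintype ι] (p : Ω → ℝ) (π : ι → Ω) (ε : ℝ) : Prop :=
  ∀ f : Ω → ℂ, (∀ ω, ‖f ω‖ ≤ 1) → ‖∑ ω, (p ω : ℂ) * f ω - (1 / (Fintype.card ι : ℂ)) * ∑ i, f (π i)‖ ≤ ε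

theorem approx (Ω : Type) [Fintype Ω] (p : Ω → ℝ) (hp : ∀ ω, 0 ≤ p ω) (hp1 : ∑ ω, p ω = 1) (ε : ℝ) (hε : 0 < ε) :
    ∃ (ι : Type) (_ : Fintype ι) (_ : Nonempty ι) (π : ι → Ω), Appr p π ε := by
  classical
  obtain ⟨M, hM⟩ : ∃ M : ℕ, M = ⌈2 * (Fintype.card Ω : ℝ) / ε⌉₊ + Fintype.card Ω + 1 := ⟨_, rfl⟩
  have hM0 : (0 : ℝ) < M := by rw [hM]; positivity
  have hMc : (Fintype.card Ω : ℝ) < M := by
    have : Fintype.card Ω < M := by omega
    exact_mod_cast this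
  have hMε : 2 * (Fintype.card Ω : ℝ) / M ≤ ε := by
    have h1 : 2 * (Fintype.card Ω : ℝ) / ε ≤ M := by
      refine (Nat.le_ceil _).trans ?_
      exact_mod_cast (by omega : ⌈2 * (Fintype.card Ω : ℝ) / ε⌉₊ ≤ M)
    rw [div_le_iff₀ hε] at h1
    rw [div_le_iff₀ hM0]
    linarith
  obtain ⟨m, hm⟩ : ∃ m : Ω → ℕ, m = fun ω => ⌊p ω * M⌋₊ := ⟨_, rfl⟩
  have m1 : ∀ ω, (m ω : ℝ) ≤ p ω * M := by
    intro ω
    rw [hm]
    exact Nat.floor_le (mul_nonneg (hp ω) hM0.le)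
  have m2 : ∀ ω, p ω * M ≤ m ω + 1 := by
    intro ω
    rw [hm]
    exact (Nat.lt_floor_add_one _).le
  obtain ⟨S, hS⟩ : ∃ S : ℝ, S = ∑ ω, (m ω : ℝ) := ⟨_, rfl⟩
  have s1 : S ≤ M := by
    rw [hS]
    calc ∑ ω, (m ω : ℝ) ≤ ∑ ω, p ω * M := sum_le_sum fun ω _ => m1 ω
      _ = M := by rw [← sum_mul, hp1, one_mul]
  have s2 : (M : ℝ) ≤ S + Fintype.card Ω := by
    rw [hS]
    calc (M : ℝ) = ∑ ω, p ω * M := by rw [← sum_mul, hp1, one_mul]
      _ ≤ ∑ ω, ((m ω : ℝ) + 1) := sum_le_sum fun ω _ => m2 ω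
      _ = _ := by rw [sum_add_distrib, sum_const, card_univ, nsmul_eq_mul, mul_one]
  have s3 : 0 < S := by linarith
  have hcard : ((Fintype.card (Σ ω : Ω, Fin (m ω)) : ℕ) : ℝ) = S := by
    rw [Fintype.card_sigma, hS]
    push_cast
    apply sum_congr rfl
    intro ω _
    rw [Fintype.card_fin]
  refine ⟨Σ ω : Ω, Fin (m ω), inferInstance, ?_, fun i => i.1, ?_⟩
  · apply Fintype.card_pos_iff.1
    have : (0 : ℝ) < ((Fintype.card (Σ ω : Ω, Fin (m ω)) : ℕ) : ℝ) := by rw [hcard]; exact s3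
    exact_mod_cast this
  · intro f hf
    have e1 : ∑ i : (Σ ω : Ω, Fin (m ω)), f i.1 = ∑ ω, (m ω : ℂ) * f ω := by
      rw [Fintype.sum_sigma]
      apply sum_congr rfl
      intro ω _
      simp
    have hcardC : ((Fintype.card (Σ ω : Ω, Fin (m ω)) : ℕ) : ℂ) = (S : ℂ) := by
      rw [← hcard]
      push_cast
      rfl
    rw [e1, hcardC, mul_sum, ← sum_sub_distrib]
    have e2 : ∀ ω, (p ω : ℂ) * f ω - 1 / (S : ℂ) * ((m ω : ℂ) * f ω) = ((p ω - m ω / S : ℝ) : ℂ) * f ω := by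
      intro ω
      push_cast
      ring
    simp only [e2]
    refine (norm_sum_le _ _).trans ?_
    have e3 : ∀ ω, ‖((p ω - m ω / S : ℝ) : ℂ) * f ω‖ ≤ (p ω - m ω / M) + (m ω / S - m ω / M) := by
      intro ω
      rw [norm_mul, Complex.norm_real, Real.norm_eq_abs]
      have q1 : (m ω : ℝ) / M ≤ p ω := by rw [div_le_iff₀ hM0]; exact m1 ω
      have q2 : (m ω : ℝ) / M ≤ m ω / S := div_le_div_of_nonneg_left (Nat.cast_nonneg _) s3 s1
      have q3 : |p ω - m ω / S| ≤ (p ω - m ω / M) + (m ω / S - m ω / M) := by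
        rw [abs_le]
        constructor <;> linarith
      calc |p ω - m ω / S| * ‖f ω‖ ≤ |p ω - m ω / S| * 1 := mul_le_mul_of_nonneg_left (hf ω) (abs_nonneg _)
        _ = |p ω - m ω / S| := mul_one _
        _ ≤ _ := q3
    refine (sum_le_sum fun ω _ => e3 ω).trans ?_
    rw [sum_add_distrib, sum_sub_distrib, sum_sub_distrib, hp1, ← sum_div, ← sum_div, ← hS, div_self s3.ne']
    have e4 : 1 - S / M + (1 - S / M) = 2 * (M - S) / M := by field_simp; ring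
    rw [e4]
    refine le_trans ?_ hMε
    apply div_le_div_of_nonneg_right _ hM0.le
    linarith

theorem Appr.real {Ω ι : Type} [Fintype Ω] [Fintype ι] {p : Ω → ℝ} {π : ι → Ω} {ε : ℝ} (h : Appr p π ε)
    (f : Ω → ℝ) (hf : ∀ ω, |f ω| ≤ 1) : |∑ ω, p ω * f ω - (1 / (Fintype.card ι : ℝ)) * ∑ i, f (π i)| ≤ ε := by
  have h1 := h (fun ω => (f ω : ℂ)) (fun ω => by rw [Complex.norm_real]; exact hf ω)
  have e : ∑ ω, (p ω : ℂ) * (f ω : ℂ) - (1 / (Fintype.card ι : ℂ)) * ∑ i, (f (π i) : ℂ) =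
      ((∑ ω, p ω * f ω - (1 / (Fintype.card ι : ℝ)) * ∑ i, f (π i) : ℝ) : ℂ) := by
    push_cast
    rfl
  rw [e, Complex.norm_real] at h1
  exact h1

theorem Appr.scaled {Ω ι : Type} [Fintype Ω] [Fintype ι] {p : Ω → ℝ} {π : ι → Ω} {ε : ℝ} (h : Appr p π ε)
    (f : Ω → ℝ) (G : ℝ) (hG : 0 < G) (hf : ∀ ω, |f ω| ≤ G) :
    |∑ ω, p ω * f ω - (1 / (Fintype.card ι : ℝ)) * ∑ i, f (π i)| ≤ G * ε := by
  have h1 := h.real (fun ω => f ω / G) (fun ω => by rw [abs_div, abs_of_pos hG, div_le_one hG]; exact hf ω)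
  have e : ∑ ω, p ω * (f ω / G) - (1 / (Fintype.card ι : ℝ)) * ∑ i, f (π i) / G =
      (∑ ω, p ω * f ω - (1 / (Fintype.card ι : ℝ)) * ∑ i, f (π i)) / G := by
    rw [sub_div, mul_div_assoc, sum_div, sum_div]
    congr 1
    apply sum_congr rfl
    intro ω _
    ring
  rw [e, abs_div, abs_of_pos hG, div_le_iff₀ hG] at h1
  linarith

theorem Appr.prob {Ω ι : Type} [Fintype Ω] [Fintype ι] {p : Ω → ℝ} {π : ι → Ω} {ε : ℝ} (h : Appr p π ε)
    (A : Ω → Prop) [DecidablePred A] : ∑ ω ∈ univ.filter (fun ω => A ω), p ω ≤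
      ((univ.filter (fun i => A (π i))).card : ℝ) / Fintype.card ι + ε := by
  have h1 := h.real (fun ω => if A ω then 1 else 0) (fun ω => by split_ifs <;> simp)
  have e1 : ∑ ω, p ω * (if A ω then (1 : ℝ) else 0) = ∑ ω ∈ univ.filter (fun ω => A ω), p ω := by
    rw [sum_filter]
    apply sum_congr rfl
    intro ω _
    split_ifs <;> simp
  have e2 : ∑ i, (if A (π i) then (1 : ℝ) else 0) = ((univ.filter (fun i => A (π i))).card : ℝ) := by
    rw [← sum_filter, sum_const, nsmul_eq_mul, mul_one]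
  rw [e1, e2] at h1
  have := (abs_le.1 h1).2
  rw [div_eq_mul_one_div]
  linarith

end Pool.Agent.V7H79.EH
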