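import Pool.Agent.N625.PT.B

set_option autoImplicit false

/-! Balanced words with brackets of `m` types as integers in base `2 m`. -/

namespace Pool.Agent.V7H79.EH
open Finset
open Pool.Agent.N625.PT (sum_blocks)

/-- the `k` digits of `v` in base `b`, the most significant one first -/
def word (b : ℕ) : ℕ → ℕ → List ℕ
  | 0, _ => []
  | k + 1, v => word b k (v / b) ++ [v % b]

lemma word_append (b : ℕ) (hb : 0 < b) (i u : ℕ) (j : ℕ) : ∀ w < b ^ j, word b (i + j) (u * b ^ j + w) = word b i u ++ word b j w := by
  induction j with
  | zero =>
    intro w hw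
    have : w = 0 := by simpa using hw
    subst this
    simp [word]
  | succ j ih =>
    intro w hw
    have h1 : w / b < b ^ j := by
      apply Nat.div_lt_of_lt_mul
      rw [pow_succ] at hw
      linarith
    have h2 : (u * b ^ (j + 1) + w) / b = u * b ^ j + w / b := by
      rw [pow_succ, ← mul_assoc, Nat.add_div_of_dvd_right (Dvd.intro_left _ rfl), Nat.mul_div_cancel _ hb]
    have h3 : (u * b ^ (j + 1) + w) % b = w % b := by
      rw [pow_succ, ← mul_assoc, Nat.mul_add_mod']
    rw [← add_assoc, word, word, h2, h3, ih _ h1, List.append_assoc]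

lemma word_length (b k : ℕ) : ∀ v, (word b k v).length = k := by
  induction k with
  | zero => intro v; rfl
  | succ k ih => intro v; rw [word, List.length_append, ih]; rfl

/-- Reading the word of digits with the stack `s` on which there are open brackets: a digit `d < m` is the opening bracket
of type `d`, the digit `m + a` the closing bracket of type `a`; all brackets are closed at the end. -/
def Balanced (m : ℕ) : List ℕ → List ℕ → Prop
  | s, [] => s = []
  | s, d :: w => if d < m then Balanced m (d :: s) w else
      match s with
      | [] => False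
      | a :: s' => d = m + a ∧ Balanced m s' w

lemma bal_open {m d : ℕ} (h : d < m) (s w : List ℕ) : Balanced m s (d :: w) ↔ Balanced m (d :: s) w := by
  cases s <;> simp [Balanced, h]

lemma bal_nil {m d : ℕ} (h : ¬ d < m) (w : List ℕ) : ¬ Balanced m [] (d :: w) := by
  rw [Balanced, if_neg h]
  exact fun h => h

lemma bal_cons {m d : ℕ} (h : ¬ d < m) (a : ℕ) (s w : List ℕ) : Balanced m (a :: s) (d :: w) ↔ d = m + a ∧ Balanced m s w := by
  rw [Balanced, if_neg h]

/-- the weight of a word -/
noncomputable def wt (m : ℕ) : List ℕ → List ℕ → ℝ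
  | _, [] => 1
  | s, d :: w => if d < m then 1 / (2 * m) * wt m (d :: s) w else
      match s with
      | [] => 0
      | a :: s' => if d = m + a then 1 / 2 * wt m s' w else 0

lemma wt_open {m d : ℕ} (h : d < m) (s w : List ℕ) : wt m s (d :: w) = 1 / (2 * m) * wt m (d :: s) w := by
  cases s <;> simp [wt, h]

lemma wt_nil {m d : ℕ} (h : ¬ d < m) (w : List ℕ) : wt m [] (d :: w) = 0 := by
  rw [wt, if_neg h]

lemma wt_cons {m d : ℕ} (h : ¬ d < m) (a : ℕ) (s w : List ℕ) :
    wt m (a :: s) (d :: w) = if d = m + a then 1 / 2 * wt m s w else 0 := by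
  rw [wt, if_neg h]

lemma wt_nonneg (m : ℕ) (w : List ℕ) : ∀ s, 0 ≤ wt m s w := by
  induction w with
  | nil => intro s; rw [wt]; norm_num
  | cons d w ih =>
    intro s
    by_cases h : d < m
    · rw [wt_open h]
      exact mul_nonneg (by positivity) (ih _)
    · cases s with
      | nil => rw [wt_nil h]
      | cons a s =>
        rw [wt_cons h]
        split_ifs
        · exact mul_nonneg (by norm_num) (ih _)
        · exact le_rfl

/-- balanced words have a large weight -/
lemma wt_balanced (m : ℕ) (w : List ℕ) : ∀ s t, Balanced m s w → w.length + s.length = 2 * t →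
    (1 / (2 * (m : ℝ))) ^ (w.length - t) * (1 / 2) ^ t ≤ wt m s w := by
  induction w with
  | nil =>
    intro s t hb ht
    rw [Balanced] at hb
    subst hb
    simp only [List.length_nil, zero_add] at ht
    have : t = 0 := by omega
    subst this
    simp [wt]
  | cons d w ih =>
    intro s t hb ht
    rw [List.length_cons] at ht ⊢
    by_cases h : d < m
    · rw [bal_open h] at hb
      rw [wt_open h]
      have h1 := ih (d :: s) t hb (by rw [List.length_cons]; omega)
      have hlen : ∀ (w s : List ℕ), Balanced m s w → s.length ≤ w.length := by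
        intro w
        induction w with
        | nil => intro s hs; rw [Balanced] at hs; subst hs; simp
        | cons d w ih =>
          intro s hs
          by_cases h : d < m
          · rw [bal_open h] at hs
            have := ih _ hs
            rw [List.length_cons] at this ⊢
            omega
          · cases s with
            | nil => exact absurd hs (bal_nil h w)
            | cons a s =>
              rw [bal_cons h] at hs
              have := ih _ hs.2
              rw [List.length_cons, List.length_cons]
              omega
      have h2 := hlen w (d :: s) hb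
      rw [List.length_cons] at h2
      have e : w.length + 1 - t = (w.length - t) + 1 := by omega
      rw [e, pow_succ]
      calc (1 / (2 * (m : ℝ))) ^ (w.length - t) * (1 / (2 * m)) * (1 / 2) ^ t
          = 1 / (2 * m) * ((1 / (2 * (m : ℝ))) ^ (w.length - t) * (1 / 2) ^ t) := by ring
        _ ≤ _ := mul_le_mul_of_nonneg_left h1 (by positivity)
    · cases s with
      | nil => exact absurd hb (bal_nil h w)
      | cons a s =>
        rw [bal_cons h] at hb
        rw [wt_cons h, if_pos hb.1]
        rw [List.length_cons] at ht
        have h1 := ih s (t - 1) hb.2 (by omega)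
        have e : w.length + 1 - t = w.length - (t - 1) := by omega
        have e2 : t = (t - 1) + 1 := by omega
        rw [e]
        calc (1 / (2 * (m : ℝ))) ^ (w.length - (t - 1)) * (1 / 2) ^ t
            = 1 / 2 * ((1 / (2 * (m : ℝ))) ^ (w.length - (t - 1)) * (1 / 2) ^ (t - 1)) := by
              conv_lhs => rw [e2, pow_succ]
              simp only [Nat.add_sub_cancel]
              ring
          _ ≤ _ := mul_le_mul_of_nonneg_left h1 (by norm_num)

/-- the weight is superharmonic -/
lemma wt_super (m : ℕ) (hm : 0 < m) (w : List ℕ) : ∀ s, ∑ d ∈ range (2 * m), wt m s (w ++ [d]) ≤ wt m s w := by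
  have hmr : (0 : ℝ) < m := by exact_mod_cast hm
  induction w with
  | nil =>
    intro s
    simp only [List.nil_append]
    rw [two_mul, sum_range_add]
    have h1 : ∑ d ∈ range m, wt m s [d] = 1 / 2 := by
      rw [sum_congr rfl (g := fun _ => 1 / (2 * (m : ℝ))) (fun d hd => by
        rw [wt_open (mem_range.1 hd), wt, mul_one]), sum_const, card_range, nsmul_eq_mul]
      field_simp
    have h2 : ∑ d ∈ range m, wt m s [m + d] ≤ 1 / 2 := by
      cases s with
      | nil =>
        rw [sum_eq_zero (fun d _ => wt_nil (by omega) [])]
        norm_num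
      | cons a s =>
        have : ∀ d, wt m (a :: s) [m + d] = if d = a then 1 / 2 else 0 := by
          intro d
          rw [wt_cons (by omega), wt, mul_one]
          by_cases h : d = a
          · rw [if_pos h, if_pos (by omega)]
          · rw [if_neg h, if_neg (by omega)]
        simp only [this]
        rw [sum_ite_eq']
        split_ifs <;> norm_num
    rw [h1, wt]
    linarith
  | cons d w ih =>
    intro s
    by_cases h : d < m
    · simp only [List.cons_append, wt_open h]
      rw [← mul_sum]
      exact mul_le_mul_of_nonneg_left (ih _) (by positivity)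
    · cases s with
      | nil =>
        simp only [List.cons_append, wt_nil h]
        rw [sum_const_zero]
      | cons a s =>
        simp only [List.cons_append, wt_cons h]
        by_cases h2 : d = m + a
        · simp only [if_pos h2]
          rw [← mul_sum]
          exact mul_le_mul_of_nonneg_left (ih _) (by norm_num)
        · simp only [if_neg h2]
          rw [sum_const_zero]

/-- the weight of an inserted pair of brackets -/
lemma wt_pair (m a : ℕ) (ha : a < m) (w : List ℕ) : ∀ s, wt m s (w ++ [a, m + a]) = 1 / (4 * m) * wt m s w := by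
  induction w with
  | nil =>
    intro s
    rw [List.nil_append, wt_open ha, wt_cons (by omega), if_pos rfl, wt]
    ring
  | cons d w ih =>
    intro s
    by_cases h : d < m
    · rw [List.cons_append, wt_open h, wt_open h, ih]
      ring
    · cases s with
      | nil => rw [List.cons_append, wt_nil h, wt_nil h, mul_zero]
      | cons a' s =>
        rw [List.cons_append, wt_cons h, wt_cons h]
        split_ifs
        · rw [ih]
          ring
        · rw [mul_zero]

lemma bal_append (m : ℕ) (y y' : List ℕ) (hy : ∀ s, Balanced m s y ↔ Balanced m s y') (x : List ℕ) :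
    ∀ s, Balanced m s (x ++ y) ↔ Balanced m s (x ++ y') := by
  induction x with
  | nil => exact hy
  | cons d x ih =>
    intro s
    by_cases h : d < m
    · rw [List.cons_append, List.cons_append, bal_open h, bal_open h, ih]
    · cases s with
      | nil =>
        rw [List.cons_append, List.cons_append]
        exact ⟨fun hh => absurd hh (bal_nil h _), fun hh => absurd hh (bal_nil h _)⟩
      | cons a' s => rw [List.cons_append, List.cons_append, bal_cons h, bal_cons h, ih]

/-- a pair of brackets can be inserted -/
lemma bal_pair (m a : ℕ) (ha : a < m) (x w : List ℕ) : ∀ s, Balanced m s (x ++ ([a, m + a] ++ w)) ↔ Balanced m s (x ++ w) := by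
  apply bal_append
  intro s
  show Balanced m s (a :: (m + a) :: w) ↔ _
  rw [bal_open ha, bal_cons (by omega)]
  simp

open Classical in
/-- the number of the words of length `r` which close the brackets of the stack `s` -/
noncomputable def cnt (m : ℕ) (s : List ℕ) (r : ℕ) : ℤ := ∑ v ∈ range ((2 * m) ^ r), if Balanced m s (word (2 * m) r v) then 1 else 0

lemma cnt_succ (m : ℕ) (hm : 0 < m) (s : List ℕ) (r : ℕ) : cnt m s (r + 1) = ∑ d ∈ range m, cnt m (d :: s) r +
    (match s with
    | [] => 0
    | a :: s' => if a < m then cnt m s' r else 0) := by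
  classical
  have e1 : cnt m s (r + 1) = ∑ d ∈ range (2 * m), ∑ w ∈ range ((2 * m) ^ r),
      if Balanced m s (d :: word (2 * m) r w) then 1 else 0 := by
    unfold cnt
    rw [pow_succ, mul_comm ((2 * m) ^ r), sum_blocks]
    apply sum_congr rfl
    intro d hd
    apply sum_congr rfl
    intro w hw
    have := word_append (2 * m) (by omega) 1 d r w (mem_range.1 hw)
    rw [add_comm 1 r] at this
    rw [this]
    have h1 : word (2 * m) 1 d = [d] := by
      rw [word, word, Nat.mod_eq_of_lt (mem_range.1 hd)]
      rfl
    rw [h1]
    rfl
  rw [e1, two_mul, sum_range_add, ← two_mul]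
  congr 1
  · apply sum_congr rfl
    intro d hd
    unfold cnt
    apply sum_congr rfl
    intro w _
    simp only [bal_open (mem_range.1 hd)]
  · cases s with
    | nil =>
      apply sum_eq_zero
      intro d _
      apply sum_eq_zero
      intro w _
      rw [if_neg (bal_nil (by omega) _)]
    | cons a s =>
      simp only
      have h1 : ∀ d, ∑ w ∈ range ((2 * m) ^ r), (if Balanced m (a :: s) ((m + d) :: word (2 * m) r w) then (1 : ℤ) else 0) =
          if d = a then cnt m s r else 0 := by
        intro d
        by_cases h : d = a
        · rw [if_pos h]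
          unfold cnt
          apply sum_congr rfl
          intro w _
          rw [bal_cons (by omega)]
          simp [h]
        · rw [if_neg h]
          apply sum_eq_zero
          intro w _
          rw [if_neg]
          rw [bal_cons (by omega)]
          rintro ⟨h2, _⟩
          omega
      simp only [h1]
      rw [sum_ite_eq']
      simp only [mem_range]

/-- the number of the words -/
lemma cnt_eq (m : ℕ) (hm : 0 < m) (r : ℕ) : ∀ (s : List ℕ) (t : ℕ), (∀ a ∈ s, a < m) → r + s.length = 2 * t →
    cnt m s r = (m : ℤ) ^ (r - t) * ((r.choose t : ℤ) - (r.choose (t + 1) : ℤ)) := by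
  classical
  induction r with
  | zero =>
    intro s t hs ht
    unfold cnt
    rw [pow_zero, sum_range_one]
    simp only [word, Balanced]
    cases s with
    | nil =>
      have : t = 0 := by simpa using ht.symm
      subst this
      simp
    | cons a s =>
      rw [List.length_cons] at ht
      rw [if_neg (by simp), Nat.choose_eq_zero_of_lt (by omega), Nat.choose_eq_zero_of_lt (by omega)]
      simp
  | succ r ih =>
    intro s t hs ht
    rw [cnt_succ m hm]
    have h1 : ∑ d ∈ range m, cnt m (d :: s) r = (m : ℤ) ^ (r + 1 - t) * ((r.choose t : ℤ) - (r.choose (t + 1) : ℤ)) := by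
      rw [sum_congr rfl (g := fun _ => (m : ℤ) ^ (r - t) * ((r.choose t : ℤ) - (r.choose (t + 1) : ℤ))) (fun d hd => by
        refine ih (d :: s) t ?_ (by rw [List.length_cons]; omega)
        intro a ha
        rcases List.mem_cons.1 ha with rfl | ha
        · exact mem_range.1 hd
        · exact hs a ha), sum_const, card_range, nsmul_eq_mul, ← mul_assoc]
      by_cases htr : t ≤ r
      · have : r + 1 - t = (r - t) + 1 := by omega
        rw [this, pow_succ]
        ring
      · rw [Nat.choose_eq_zero_of_lt (by omega), Nat.choose_eq_zero_of_lt (by omega)]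
        simp
    rw [h1]
    cases s with
    | nil =>
      simp only [List.length_nil] at ht
      obtain ⟨t', rfl⟩ : ∃ t', t = t' + 1 := ⟨t - 1, by omega⟩
      have hr : r = 2 * t' + 1 := by omega
      simp only [add_zero]
      congr 1
      rw [Nat.choose_succ_succ r t', Nat.choose_succ_succ r (t' + 1)]
      have : r.choose t' = r.choose (t' + 1) := by
        apply Nat.choose_symm_of_eq_add
        omega
      push_cast
      rw [this]
      ring
    | cons a s =>
      simp only
      rw [if_pos (hs a (List.mem_cons_self))]
      rw [List.length_cons] at ht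
      obtain ⟨t', rfl⟩ : ∃ t', t = t' + 1 := ⟨t - 1, by omega⟩
      rw [ih s t' (fun a' ha' => hs a' (List.mem_cons_of_mem _ ha')) (by omega)]
      rw [Nat.choose_succ_succ r t', Nat.choose_succ_succ r (t' + 1)]
      have : r + 1 - (t' + 1) = r - t' := by omega
      rw [this]
      push_cast
      ring

/-- the number of the balanced words of length `2 n` is at least `m ^ n 4 ^ n / (2 n) ^ 2` -/
lemma cnt_ge (m n : ℕ) (hm : 0 < m) (hn : 1 ≤ n) : ((m : ℤ) * 4) ^ n ≤ (2 * n) ^ 2 * cnt m [] (2 * n) := by
  rw [cnt_eq m hm (2 * n) [] n (by simp) (by simp)]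
  have e1 : 2 * n - n = n := by omega
  rw [e1, mul_pow]
  have h1 := Nat.four_pow_le_two_mul_self_mul_centralBinom n (by omega)
  have h2 := Nat.choose_succ_right_eq (2 * n) n
  rw [e1] at h2
  rw [Nat.centralBinom_eq_two_mul_choose] at h1
  have h1z : (4 : ℤ) ^ n ≤ 2 * n * ((2 * n).choose n : ℤ) := by exact_mod_cast h1
  have h2z : ((2 * n).choose (n + 1) : ℤ) * (n + 1) = (2 * n).choose n * n := by exact_mod_cast h2
  have h3 : ((2 * n).choose n : ℤ) = (n + 1) * (((2 * n).choose n : ℤ) - ((2 * n).choose (n + 1) : ℤ)) := by linarith
  obtain ⟨C, hC⟩ : ∃ C : ℤ, C = ((2 * n).choose n : ℤ) - ((2 * n).choose (n + 1) : ℤ) := ⟨_, rfl⟩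
  rw [← hC] at h3 ⊢
  have hnz : (1 : ℤ) ≤ n := by exact_mod_cast hn
  have hC0 : 0 ≤ C := by
    have : (0 : ℤ) ≤ ((2 * n).choose n : ℤ) := Int.natCast_nonneg _
    rw [h3] at this
    nlinarith
  have hmz : (0 : ℤ) ≤ (m : ℤ) ^ n := by positivity
  rw [h3] at h1z
  have h4 : (4 : ℤ) ^ n ≤ (2 * n) ^ 2 * C := by
    have : ((n : ℤ) + 1) * C ≤ (2 * n) * C := mul_le_mul_of_nonneg_right (by linarith) hC0
    nlinarith
  calc (m : ℤ) ^ n * 4 ^ n ≤ (m : ℤ) ^ n * ((2 * n) ^ 2 * C) := mul_le_mul_of_nonneg_left h4 hmz
    _ = _ := by ring

end Pool.Agent.V7H79.EH
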