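import Pool.Agent.V7H79.EH.Chain
import Pool.Agent.W93.AU17

set_option autoImplicit false

/-! First moments for uniform families whose characteristic function is small at frequencies with many digits. -/

namespace Pool.Agent.V7H79.EH
open Finset
open Pool.Agent.W93.AU (Law dI two_law)
open Pool.Agent.TH212.EH (S1 S2)

/-- the uniform law on the family, at the scale `N = b ^ k`, with the frequencies `t / b ^ (k + e + 1)` -/
def LawFam (b F e : ℕ) : Fam := fun V D N ι _ v => ∃ k, N = b ^ k ∧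
  Law b F D V (k + e) (univ : Finset ι) (fun _ => 1 / (Fintype.card ι : ℝ)) v

lemma Law_anti {b F D V V' K : ℕ} {ι : Type} {Ω : Finset ι} {p : ι → ℝ} {Y : ι → ℤ} (h : V ≤ V') (hK : 1 ≤ K)
    (hl : Law b F D V' K Ω p Y) : Law b F D V K Ω p Y := by
  refine ⟨hl.nonneg, hl.le_one, fun t ht => (hl.char t ht).trans ?_⟩
  have h1 : (1 : ℝ) ≤ K := by exact_mod_cast hK
  apply one_div_le_one_div_of_le (by positivity)
  exact pow_le_pow_right₀ h1 h

lemma lawFam_anti (b F e : ℕ) : Anti (LawFam b F e) := by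
  rintro R R' C N ι _ v hR hL ⟨k, rfl, hk⟩
  refine ⟨k, rfl, Law_anti hR ?_ hk⟩
  by_contra hcon
  have : k = 0 := by omega
  subst this
  norm_num at hL

lemma dI_neg (z : ℕ) (m : ℤ) (hm : m < 1) : dI z m = 0 := by
  unfold dI Pool.Agent.H373R2.T7.lamI Pool.Agent.H373R2.T7.lamzI
  rw [if_neg (by omega), if_neg (by omega), sub_zero]

/-- from second to first moments -/
lemma first_of_second {ι : Type} [Fintype ι] (S : ι → ℝ) (τ : ℝ) (hτ : 0 < τ)
    (h : ∑ i, 1 / (Fintype.card ι : ℝ) * S i ^ 2 ≤ τ ^ 2) : ∑ i, |S i| ≤ Fintype.card ι * τ := by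
  rcases isEmpty_or_nonempty ι with he | he
  · simp
  have hc : (0 : ℝ) < Fintype.card ι := by exact_mod_cast Fintype.card_pos
  have h1 : ∑ i, S i ^ 2 ≤ Fintype.card ι * τ ^ 2 := by
    rw [← mul_sum, one_div, inv_mul_le_iff₀ hc] at h
    exact h
  have h2 : ∀ i, |S i| ≤ S i ^ 2 / (2 * τ) + τ / 2 := by
    intro i
    have h3 : 0 ≤ (|S i| - τ) ^ 2 := sq_nonneg _
    have h4 : S i ^ 2 / (2 * τ) + τ / 2 - |S i| = (|S i| - τ) ^ 2 / (2 * τ) := by
      rw [← sq_abs (S i)]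
      field_simp
      ring
    have h5 : 0 ≤ (|S i| - τ) ^ 2 / (2 * τ) := by positivity
    linarith
  calc ∑ i, |S i| ≤ ∑ i, (S i ^ 2 / (2 * τ) + τ / 2) := sum_le_sum fun i _ => h2 i
    _ = (∑ i, S i ^ 2) / (2 * τ) + Fintype.card ι * (τ / 2) := by
        rw [sum_add_distrib, ← sum_div, sum_const, card_univ, nsmul_eq_mul]
    _ ≤ (Fintype.card ι * τ ^ 2) / (2 * τ) + Fintype.card ι * (τ / 2) := by gcongr
    _ = _ := by field_simp; ring

/-- first moments for a fixed length -/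
theorem lawFam_base (b F e B : ℕ) (hb : 2 ≤ b) (hF : 1 ≤ F) (hB : 2 * B + 1 ≤ b ^ e) : Base (LawFam b F e) B := by
  intro U
  obtain ⟨W, hW⟩ : ∃ W, W = 2 * U + 2 := ⟨_, rfl⟩
  refine ⟨2 * W + 6, fun D => ?_⟩
  obtain ⟨B0, h0⟩ := two_law b F hb hF (2 * W) D
  refine ⟨2 * B0, fun E => ?_⟩
  obtain ⟨K₀, h1⟩ := h0 E
  refine ⟨b ^ (K₀ + e + b ^ e + b + 3), fun N hN ι _ v hv hP z hz1 hz2 A hA G hG => ?_⟩
  obtain ⟨k, rfl, hlaw⟩ := hP
  have hk : K₀ + e + b ^ e + b + 3 ≤ k := (Nat.pow_le_pow_iff_right (by omega)).1 hN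
  obtain ⟨K, hK⟩ : ∃ K, K = k + e := ⟨_, rfl⟩
  rw [← hK] at hlaw
  have hbr : (2 : ℝ) ≤ b := by exact_mod_cast hb
  have hlb0 : 1 / 2 ≤ Real.log b := by
    have q1 : Real.log 2 ≤ Real.log b := Real.log_le_log (by norm_num) hbr
    linarith [Real.log_two_gt_d9]
  have hlb1 : Real.log b ≤ b := (Real.log_le_sub_one_of_pos (by linarith)).trans (by linarith)
  obtain ⟨L, hL⟩ : ∃ L, L = Real.log ((b ^ k : ℕ) : ℝ) := ⟨_, rfl⟩
  have hLk : L = k * Real.log b := by rw [hL]; push_cast; rw [Real.log_pow]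
  have hLK : Real.log ((b ^ K : ℕ) : ℝ) = K * Real.log b := by push_cast; rw [Real.log_pow]
  have hkr : ((K₀ + e + b ^ e + b + 3 : ℕ) : ℝ) ≤ k := by exact_mod_cast hk
  push_cast at hkr
  have hK0r : (0 : ℝ) ≤ K₀ := Nat.cast_nonneg _
  have her : (0 : ℝ) ≤ e := Nat.cast_nonneg _
  have hber : (1 : ℝ) ≤ (b : ℝ) ^ e := one_le_pow₀ (by linarith)
  have hKr : (K : ℝ) = k + e := by rw [hK]; push_cast; ring
  have hk3 : (3 : ℝ) ≤ k := by linarith
  have hL1 : 1 ≤ L := by rw [hLk]; nlinarith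
  have hKL : K * Real.log b ≤ L ^ 2 := by
    have h3 : (K : ℝ) ≤ 2 * k := by rw [hKr]; linarith
    have h4 : 2 ≤ L := by
      rw [hLk]
      have : (4 : ℝ) ≤ k := by linarith
      nlinarith
    calc K * Real.log b ≤ (2 * k) * Real.log b := mul_le_mul_of_nonneg_right h3 (by linarith)
      _ = 2 * L := by rw [hLk]; ring
      _ ≤ L ^ 2 := by nlinarith
  have hLK1 : L ≤ K * Real.log b := by
    rw [hLk, hKr]
    apply mul_le_mul_of_nonneg_right _ (by linarith)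
    linarith
  have hz1' : Real.log ((b ^ K : ℕ) : ℝ) ^ B0 ≤ z := by
    refine le_trans ?_ hz1
    rw [← hL, hLK, pow_mul]
    exact pow_le_pow_left₀ (by positivity) hKL B0
  have hz2' : (z : ℝ) ≤ Real.log ((b ^ K : ℕ) : ℝ) ^ E := by
    refine hz2.trans ?_
    rw [← hL, hLK]
    exact pow_le_pow_left₀ (by linarith) hLK1 E
  have hBK : (2 * B + 1) * b ^ k ≤ b ^ K := by
    rw [hK, pow_add, mul_comm]
    exact Nat.mul_le_mul_left _ hB
  have hbk : 1 ≤ b ^ k := Nat.one_le_pow _ _ (by omega)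
  have hA' : A ≤ b ^ K := by
    refine hA.trans (le_trans ?_ hBK)
    exact Nat.mul_le_mul_right _ (by omega)
  obtain ⟨m1, m2⟩ := h1 K (by omega) z hz1' hz2' ι univ _ v hlaw 1 zero_le_one G A hA' (fun n _ => hG n)
  have hvB : ∀ i, v i ≤ B * b ^ k ∧ -((B : ℤ) * b ^ k) ≤ v i := by
    intro i
    have := abs_le.1 (hv i)
    push_cast at this
    exact ⟨this.2, this.1⟩
  have hBKz : (2 * (B : ℤ) + 1) * (b : ℤ) ^ k ≤ (b : ℤ) ^ K := by exact_mod_cast hBK
  have hbkz : (1 : ℤ) ≤ (b : ℤ) ^ k := by exact_mod_cast hbk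
  have hAz : (A : ℤ) ≤ B * (b : ℤ) ^ k := by exact_mod_cast hA
  have hBz : (0 : ℤ) ≤ B := Int.natCast_nonneg _
  -- the size
  obtain ⟨τ, hτ⟩ : ∃ τ : ℝ, τ = ((b ^ K : ℕ) : ℝ) / (K : ℝ) ^ W := ⟨_, rfl⟩
  have hK1 : (1 : ℝ) ≤ K := by rw [hKr]; linarith
  have hK0 : (0 : ℝ) < K := by linarith
  have hbK0 : (0 : ℝ) < ((b ^ K : ℕ) : ℝ) := by exact_mod_cast Nat.pow_pos (by omega : 0 < b)
  have hτ0 : 0 < τ := by rw [hτ]; positivity
  have hτ2 : (1 * ((b ^ K : ℕ) : ℝ)) ^ 2 / (K : ℝ) ^ (2 * W) = τ ^ 2 := by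
    rw [hτ, div_pow, one_mul, ← pow_mul, mul_comm W 2]
  rw [hτ2] at m1 m2
  have hfin : Fintype.card ι * τ ≤ ((b ^ k : ℕ) : ℝ) * Fintype.card ι / Real.log ((b ^ k : ℕ) : ℝ) ^ U := by
    rw [← hL, hτ, hK, pow_add]
    push_cast
    have h3 : (b : ℝ) ^ e * L ^ U ≤ ((k : ℝ) + e) ^ W := by
      have h4 : L ≤ ((k : ℝ) + e) ^ 2 := by
        rw [hLk]
        nlinarith
      have h5 : (b : ℝ) ^ e ≤ (k : ℝ) + e := by linarith
      have h6 : (1 : ℝ) ≤ (k : ℝ) + e := by linarith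
      calc (b : ℝ) ^ e * L ^ U ≤ ((k : ℝ) + e) * (((k : ℝ) + e) ^ 2) ^ U := by
            apply mul_le_mul h5 _ (by positivity) (by positivity)
            exact pow_le_pow_left₀ (by linarith) h4 U
        _ = ((k : ℝ) + e) ^ (2 * U + 1) := by rw [← pow_mul, pow_succ]; ring
        _ ≤ _ := pow_le_pow_right₀ h6 (by omega)
    have h7 : (0 : ℝ) < ((k : ℝ) + e) ^ W := by positivity
    have h8 : (0 : ℝ) < L ^ U := by positivity
    have hc : (0 : ℝ) ≤ Fintype.card ι := Nat.cast_nonneg _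
    rw [mul_div_assoc', div_le_div_iff₀ h7 h8]
    calc (Fintype.card ι : ℝ) * ((b : ℝ) ^ k * (b : ℝ) ^ e) * L ^ U = ((b : ℝ) ^ k * Fintype.card ι) * ((b : ℝ) ^ e * L ^ U) := by ring
      _ ≤ ((b : ℝ) ^ k * Fintype.card ι) * ((k : ℝ) + e) ^ W := mul_le_mul_of_nonneg_left h3 (by positivity)
  constructor
  · refine le_trans (first_of_second _ τ hτ0 (m1 ?_)) hfin
    intro i _
    push_cast
    have := hvB i
    constructor <;> nlinarith
  · have m3 := m2 (univ.filter (fun i => 0 < v i)) (filter_subset _ _) (by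
      intro i hi
      rw [mem_filter] at hi
      push_cast
      have := hvB i
      exact ⟨hi.2, by nlinarith⟩)
    refine le_trans (first_of_second _ τ hτ0 ?_) hfin
    refine le_trans (le_of_eq ?_) m3
    rw [sum_filter]
    apply sum_congr rfl
    intro i _
    split_ifs with h
    · rfl
    · have : S2 G z A (v i) = 0 := by
        unfold S2
        apply sum_eq_zero
        intro n hn
        rw [mem_Icc] at hn
        rw [dI_neg z _ (by omega), mul_zero]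
      rw [this]
      ring

end Pool.Agent.V7H79.EH
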