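import Pool.Agent.V7H79.EH.LawBase
import Pool.Agent.V7H79.EH.Approx

set_option autoImplicit false

/-! Level of distribution along random integers whose characteristic function is small at frequencies with many digits. -/

namespace Pool.Agent.V7H79.EH
open Finset
open Pool.Agent.W93.AU (Law)
open Pool.Agent.TH212.EH (level W WW large)
open Pool.Agent.W93.LV (Fu)
open Pool.Agent.H807R2.Dav (ee norm_ee)

/-- the law of the approximation -/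
lemma law_approx {b F D V K : ℕ} {Ω ι : Type} [Fintype Ω] [Fintype ι] [Nonempty ι] {p : Ω → ℝ} {v : Ω → ℤ} {π : ι → Ω} {ε : ℝ}
    (hK : 2 ≤ K) (hε : ε ≤ 1 / (K : ℝ) ^ (V + 1)) (h : Appr p π ε) (hl : Law b F D (V + 1) K univ p v) :
    Law b F D V K (univ : Finset ι) (fun _ => 1 / (Fintype.card ι : ℝ)) (fun i => v (π i)) := by
  have hc : (0 : ℝ) < Fintype.card ι := by exact_mod_cast Fintype.card_pos
  refine ⟨fun _ _ => by positivity, ?_, fun t ht => ?_⟩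
  · rw [sum_const, card_univ, nsmul_eq_mul, mul_one_div, div_self hc.ne']
  · have h1 := h (fun ω => ee ((v ω : ℝ) * ((t : ℝ) / ((b ^ (K + 1) : ℕ) : ℝ)))) (fun ω => (norm_ee _).le)
    have h2 := hl.char t ht
    have hKr : (2 : ℝ) ≤ K := by exact_mod_cast hK
    have e : ∑ i : ι, (((fun _ : ι => 1 / (Fintype.card ι : ℝ)) i : ℝ) : ℂ) * ee (((fun i => v (π i)) i : ℝ) * ((t : ℝ) / ((b ^ (K + 1) : ℕ) : ℝ))) =
        (1 / (Fintype.card ι : ℂ)) * ∑ i, ee ((v (π i) : ℝ) * ((t : ℝ) / ((b ^ (K + 1) : ℕ) : ℝ))) := by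
      rw [mul_sum]
      apply sum_congr rfl
      intro i _
      push_cast
      rfl
    rw [e]
    have h3 : ‖(1 / (Fintype.card ι : ℂ)) * ∑ i, ee ((v (π i) : ℝ) * ((t : ℝ) / ((b ^ (K + 1) : ℕ) : ℝ)))‖ ≤
        1 / (K : ℝ) ^ (V + 1) + ε := by
      have := norm_sub_norm_le ((1 / (Fintype.card ι : ℂ)) * ∑ i, ee ((v (π i) : ℝ) * ((t : ℝ) / ((b ^ (K + 1) : ℕ) : ℝ))))
        (∑ ω, (p ω : ℂ) * ee ((v ω : ℝ) * ((t : ℝ) / ((b ^ (K + 1) : ℕ) : ℝ))))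
      rw [norm_sub_rev] at this
      linarith
    have h4 : 2 * (1 / (K : ℝ) ^ (V + 1)) ≤ 1 / (K : ℝ) ^ V := by
      rw [pow_succ, mul_one_div, div_le_div_iff₀ (by positivity) (by positivity)]
      have : (0 : ℝ) < (K : ℝ) ^ V := by positivity
      nlinarith
    linarith

open Classical in
/-- few exceptions -/
theorem few_law (b F e B : ℕ) (hb : 2 ≤ b) (hF : 1 ≤ F) (hB : 2 * B + 1 ≤ b ^ e) (T U : ℕ) : ∃ V : ℕ, ∀ D : ℕ, ∃ K N₀ : ℕ,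
    ∀ N k : ℕ, N₀ ≤ N → N = b ^ k → ∀ (Ω : Type) [Fintype Ω] (p : Ω → ℝ) (v : Ω → ℤ), ∑ ω, p ω = 1 →
    (∀ ω, |v ω| ≤ B * N) → Law b F D V (k + e) univ p v →
    ∀ lam : ℕ → ℝ, (∀ q, |lam q| ≤ Real.log N ^ T * (q.divisors.card : ℝ) ^ T) →
    ∑ ω ∈ univ.filter (fun ω : Ω => 0 < v ω ∧ ∃ Q : ℕ, (Q : ℝ) ≤ level K N ∧ ∃ y : ℕ, y ≤ B * N ∧
      (N : ℝ) / Real.log N ^ U < |W lam Q y (v ω).toNat|), p ω ≤ 1 / Real.log N ^ U ∧
    ∀ y : ℕ → ℕ, (∀ q, y q ≤ B * N) →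
    ∑ ω ∈ univ.filter (fun ω : Ω => 0 < v ω ∧ ∃ Q : ℕ, (Q : ℝ) ≤ level K N ∧
      (N : ℝ) / Real.log N ^ U < |WW lam y Q (v ω).toNat|), p ω ≤ 1 / Real.log N ^ U := by
  obtain ⟨V, hV⟩ := few (lawFam_anti b F e) (lawFam_base b F e B hb hF hB) T (U + 1)
  refine ⟨V + 1, fun D => ?_⟩
  obtain ⟨K, n0, h0⟩ := hV D
  obtain ⟨n1, h1⟩ := large 3 (n0 + b ^ 3 + 3)
  refine ⟨K, n1, fun N k hN hk Ω _ p v hp1 hv hl lam hlam => ?_⟩
  obtain ⟨hN1, hL3, hL1⟩ := h1 N hN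
  have hk3 : 3 ≤ k := by
    have : b ^ 3 ≤ b ^ k := by omega
    exact (Nat.pow_le_pow_iff_right (by omega)).1 this
  have hN0 : (0 : ℝ) < N := by exact_mod_cast (by omega : 0 < N)
  obtain ⟨L, hL⟩ : ∃ L, L = Real.log (N : ℝ) := ⟨_, rfl⟩
  rw [← hL] at hL3 hL1 hlam ⊢
  have hL0 : 0 < L := by linarith
  have hke : (0 : ℝ) < ((k + e : ℕ) : ℝ) := by exact_mod_cast (by omega : 0 < k + e)
  obtain ⟨ι, _, _, π, hπ⟩ := approx Ω p (fun ω => hl.nonneg ω (mem_univ _)) hp1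
    (min (1 / L ^ (U + 1)) (1 / ((k + e : ℕ) : ℝ) ^ (V + 1))) (by positivity)
  have hc : (0 : ℝ) < Fintype.card ι := by exact_mod_cast Fintype.card_pos
  have hlaw := law_approx (by omega) (min_le_right _ _) hπ hl
  obtain ⟨k1, k2⟩ := h0 N (by omega) ι (fun i => v (π i)) (fun i => hv _) ⟨k, hk, hlaw⟩ lam (by rw [← hL]; exact hlam)
  rw [← hL] at k1 k2
  have hLU : 1 / L ^ (U + 1) + 1 / L ^ (U + 1) ≤ 1 / L ^ U := by
    rw [pow_succ, ← two_mul, mul_one_div, div_le_div_iff₀ (by positivity) (by positivity)]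
    have : (0 : ℝ) < L ^ U := by positivity
    nlinarith
  have hLU2 : (N : ℝ) / L ^ (U + 1) ≤ N / L ^ U := by
    apply div_le_div_of_nonneg_left hN0.le (by positivity)
    exact pow_le_pow_right₀ hL1 (by omega)
  have hfin : ∀ (A : Ω → Prop) (_ : DecidablePred A) (C : ι → Prop) (_ : DecidablePred C), (∀ i, A (π i) → C i) →
      ((univ.filter (fun i => C i)).card : ℝ) ≤ Fintype.card ι / L ^ (U + 1) →
      ∑ ω ∈ univ.filter (fun ω => A ω), p ω ≤ 1 / L ^ U := by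
    intro A _ C _ hAC hC
    refine (hπ.prob A).trans ?_
    have q1 : ((univ.filter (fun i => A (π i))).card : ℝ) ≤ Fintype.card ι / L ^ (U + 1) := by
      refine le_trans ?_ hC
      apply Nat.cast_le.2
      apply card_le_card
      intro i hi
      rw [mem_filter] at hi ⊢
      exact ⟨hi.1, hAC i hi.2⟩
    have q2 : ((univ.filter (fun i => A (π i))).card : ℝ) / Fintype.card ι ≤ 1 / L ^ (U + 1) := by
      rw [div_le_iff₀ hc, one_div_mul_eq_div]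
      exact q1
    have q3 := min_le_left (1 / L ^ (U + 1)) (1 / ((k + e : ℕ) : ℝ) ^ (V + 1))
    linarith
  constructor
  · refine hfin _ _ _ _ ?_ k1
    rintro i ⟨h2, Q, h3, y, h4, h5⟩
    exact ⟨h2, Q, h3, y, h4, hLU2.trans_lt h5⟩
  · intro y hy
    refine hfin _ _ _ _ ?_ (k2 y hy)
    rintro i ⟨h2, Q, h3, h5⟩
    exact ⟨h2, Q, h3, hLU2.trans_lt h5⟩

open Classical in
/-- the dual form -/
theorem dual_law (b F e B : ℕ) (hb : 2 ≤ b) (hF : 1 ≤ F) (hB : 2 * B + 1 ≤ b ^ e) (T U : ℕ) : ∃ V : ℕ, ∀ D : ℕ, ∃ K N₀ : ℕ,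
    ∀ N k : ℕ, N₀ ≤ N → N = b ^ k → ∀ (Ω : Type) [Fintype Ω] (p : Ω → ℝ) (v : Ω → ℤ), ∑ ω, p ω = 1 →
    (∀ ω, |v ω| ≤ B * N) → Law b F D V (k + e) univ p v →
    ∀ c : Ω → ℝ, (∀ ω, |c ω| ≤ Real.log N ^ T) → ∀ Q : ℕ, (Q : ℝ) ≤ level K N → ∀ y : ℕ → ℕ, (∀ q, y q ≤ B * N) →
    ∑ q ∈ Icc 1 Q, (q.divisors.card : ℝ) ^ T * |∑ ω ∈ univ.filter (fun ω => 0 < v ω ∧ (v ω).toNat.Coprime q),
      p ω * c ω * (Fu (fun n => ArithmeticFunction.vonMangoldt n) (y q) q (v ω).toNat - (y q : ℝ) / Nat.totient q)| ≤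
      N / Real.log N ^ U := by
  obtain ⟨V, hV⟩ := dual (lawFam_anti b F e) (lawFam_base b F e B hb hF hB) T (U + 1)
  refine ⟨V + 1, fun D => ?_⟩
  obtain ⟨K, n0, h0⟩ := hV D
  obtain ⟨n1, h1⟩ := large 3 (n0 + b ^ 3 + 3)
  refine ⟨K, n1, fun N k hN hk Ω _ p v hp1 hv hl c hc Q hQ y hy => ?_⟩
  obtain ⟨hN1, hL3, hL1⟩ := h1 N hN
  have hk3 : 3 ≤ k := by
    have : b ^ 3 ≤ b ^ k := by omega
    exact (Nat.pow_le_pow_iff_right (by omega)).1 this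
  have hN0 : (0 : ℝ) < N := by exact_mod_cast (by omega : 0 < N)
  obtain ⟨L, hL⟩ : ∃ L, L = Real.log (N : ℝ) := ⟨_, rfl⟩
  rw [← hL] at hL3 hL1 hc ⊢
  have hL0 : 0 < L := by linarith
  have hke : (0 : ℝ) < ((k + e : ℕ) : ℝ) := by exact_mod_cast (by omega : 0 < k + e)
  obtain ⟨g, hg⟩ : ∃ g : ℕ → Ω → ℝ, g = fun q ω => if 0 < v ω ∧ (v ω).toNat.Coprime q then
    c ω * (Fu (fun n => ArithmeticFunction.vonMangoldt n) (y q) q (v ω).toNat - (y q : ℝ) / Nat.totient q) else 0 := ⟨_, rfl⟩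
  obtain ⟨G, hG⟩ : ∃ G : ℝ, G = 1 + ∑ q ∈ Icc 1 Q, ∑ ω, |g q ω| := ⟨_, rfl⟩
  have hG0 : 0 < G := by
    rw [hG]
    have : 0 ≤ ∑ q ∈ Icc 1 Q, ∑ ω, |g q ω| := sum_nonneg fun q _ => sum_nonneg fun ω _ => abs_nonneg _
    linarith
  have hgG : ∀ q ∈ Icc 1 Q, ∀ ω, |g q ω| ≤ G := by
    intro q hq ω
    have s1 : |g q ω| ≤ ∑ ω, |g q ω| := single_le_sum (f := fun ω => |g q ω|) (fun ω _ => abs_nonneg _) (mem_univ ω)
    have s2 : ∑ ω, |g q ω| ≤ ∑ q ∈ Icc 1 Q, ∑ ω, |g q ω| :=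
      single_le_sum (f := fun q => ∑ ω, |g q ω|) (fun q _ => sum_nonneg fun ω _ => abs_nonneg _) hq
    rw [hG]
    linarith
  obtain ⟨H, hH⟩ : ∃ H : ℝ, H = 1 + ∑ q ∈ Icc 1 Q, (q.divisors.card : ℝ) ^ T := ⟨_, rfl⟩
  have hH0 : 0 < H := by
    rw [hH]
    positivity
  obtain ⟨ι, _, _, π, hπ⟩ := approx Ω p (fun ω => hl.nonneg ω (mem_univ _)) hp1
    (min (N / L ^ (U + 1) / (G * H)) (1 / ((k + e : ℕ) : ℝ) ^ (V + 1))) (by positivity)
  have hcd : (0 : ℝ) < Fintype.card ι := by exact_mod_cast Fintype.card_pos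
  have hlaw := law_approx (by omega) (min_le_right _ _) hπ hl
  have k1 := h0 N (by omega) ι (fun i => v (π i)) (fun i => hv _) ⟨k, hk, hlaw⟩ (fun i => c (π i))
    (fun i => by rw [← hL]; exact hc _) Q hQ y hy
  rw [← hL] at k1
  have e1 : ∀ q, ∑ ω ∈ univ.filter (fun ω => 0 < v ω ∧ (v ω).toNat.Coprime q),
      p ω * c ω * (Fu (fun n => ArithmeticFunction.vonMangoldt n) (y q) q (v ω).toNat - (y q : ℝ) / Nat.totient q) =
      ∑ ω, p ω * g q ω := by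
    intro q
    rw [sum_filter, hg]
    apply sum_congr rfl
    intro ω _
    simp only
    split_ifs <;> ring
  have e2 : ∀ q, ∑ i ∈ univ.filter (fun i => 0 < v (π i) ∧ (v (π i)).toNat.Coprime q),
      c (π i) * (Fu (fun n => ArithmeticFunction.vonMangoldt n) (y q) q (v (π i)).toNat - (y q : ℝ) / Nat.totient q) =
      ∑ i, g q (π i) := by
    intro q
    rw [sum_filter, hg]
  simp only [e1]
  simp only [e2] at k1
  have e3 : ∀ q ∈ Icc 1 Q, (q.divisors.card : ℝ) ^ T * |∑ ω, p ω * g q ω| ≤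
      (1 / (Fintype.card ι : ℝ)) * ((q.divisors.card : ℝ) ^ T * |∑ i, g q (π i)|) +
      (q.divisors.card : ℝ) ^ T * (N / L ^ (U + 1) / H) := by
    intro q hq
    have s1 := hπ.scaled (g q) G hG0 (hgG q hq)
    have s2 : G * min (N / L ^ (U + 1) / (G * H)) (1 / ((k + e : ℕ) : ℝ) ^ (V + 1)) ≤ N / L ^ (U + 1) / H := by
      calc G * min (N / L ^ (U + 1) / (G * H)) (1 / ((k + e : ℕ) : ℝ) ^ (V + 1)) ≤ G * (N / L ^ (U + 1) / (G * H)) :=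
            mul_le_mul_of_nonneg_left (min_le_left _ _) hG0.le
        _ = _ := by field_simp
    have s3 : |∑ ω, p ω * g q ω| ≤ (1 / (Fintype.card ι : ℝ)) * |∑ i, g q (π i)| + N / L ^ (U + 1) / H := by
      have s4 := abs_sub_abs_le_abs_sub (∑ ω, p ω * g q ω) ((1 / (Fintype.card ι : ℝ)) * ∑ i, g q (π i))
      rw [abs_mul, abs_of_pos (by positivity : (0 : ℝ) < 1 / (Fintype.card ι : ℝ))] at s4
      linarith
    calc (q.divisors.card : ℝ) ^ T * |∑ ω, p ω * g q ω| ≤ (q.divisors.card : ℝ) ^ T *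
          ((1 / (Fintype.card ι : ℝ)) * |∑ i, g q (π i)| + N / L ^ (U + 1) / H) := mul_le_mul_of_nonneg_left s3 (by positivity)
      _ = _ := by ring
  refine (sum_le_sum e3).trans ?_
  rw [sum_add_distrib, ← mul_sum, ← sum_mul]
  have hLU : (N : ℝ) / L ^ (U + 1) + N / L ^ (U + 1) ≤ N / L ^ U := by
    rw [pow_succ, ← add_div, div_le_div_iff₀ (by positivity) (by positivity)]
    have : (0 : ℝ) < N * L ^ U := by positivity
    nlinarith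
  have t1 : (1 / (Fintype.card ι : ℝ)) * ∑ q ∈ Icc 1 Q, (q.divisors.card : ℝ) ^ T * |∑ i, g q (π i)| ≤ N / L ^ (U + 1) := by
    refine (mul_le_mul_of_nonneg_left k1 (by positivity)).trans (le_of_eq ?_)
    field_simp
  have t2 : (∑ q ∈ Icc 1 Q, (q.divisors.card : ℝ) ^ T) * (N / L ^ (U + 1) / H) ≤ N / L ^ (U + 1) := by
    have t3 : ∑ q ∈ Icc 1 Q, (q.divisors.card : ℝ) ^ T ≤ H := by rw [hH]; linarith
    calc (∑ q ∈ Icc 1 Q, (q.divisors.card : ℝ) ^ T) * (N / L ^ (U + 1) / H) ≤ H * (N / L ^ (U + 1) / H) :=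
          mul_le_mul_of_nonneg_right t3 (by positivity)
      _ = _ := by field_simp
  linarith

end Pool.Agent.V7H79.EH
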